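import Pool.Agent.H75.Tp.Psi

set_option autoImplicit false

namespace Pool.Agent.H75.Tp

open Finset Pool.Agent.Helper890.Tp
open scoped BigOperators

/-- cotype `q` of `ℓ₁(ℓ_r)`, `2 ≤ r ≤ q`, with constant `√3` -/
lemma cot_nr {R J : Type*} [Fintype R] [Fintype J] {r q : ℝ} (hr : 2 ≤ r) (hq : r ≤ q) (k : ℕ)
    (y : Fin k → R × J → ℝ) :
    Lr q (fun i => nr r (y i)) ^ 2 ≤ 3 * 𝔼 e : Fin k → ℤˣ, nr r (∑ i, sg (e i) • y i) ^ 2 := by
  have hr0 : 0 < r := by linarith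
  have hr1 : 1 ≤ r := by linarith
  have h1 : ∀ i' : R, Lr r (fun i : Fin k => Lr r (fun j => y i (i', j)))
      ≤ Real.sqrt 3 * 𝔼 e : Fin k → ℤˣ, Lr r (fun j => (∑ i, sg (e i) • y i) (i', j)) := by
    intro i'
    set X : J → ℝ := fun j => 𝔼 e : Fin k → ℤˣ, |∑ i, sg (e i) * y i (i', j)| with hX
    have hX0 : ∀ j, 0 ≤ X j := fun j => Finset.expect_nonneg (fun e _ => abs_nonneg _)
    have hXle : Lr r X ≤ 𝔼 e : Fin k → ℤˣ, Lr r (fun j => (∑ i, sg (e i) • y i) (i', j)) := by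
      refine (Lr_expect hr1 (fun (e : Fin k → ℤˣ) (j : J) => |∑ i, sg (e i) * y i (i', j)|)).trans ?_
      refine Finset.expect_le_expect (fun e _ => ?_)
      rw [Lr_abs]
      apply le_of_eq
      congr 1
      funext j
      simp [Finset.sum_apply]
    have h2 : Lr r (fun i : Fin k => Lr r (fun j => y i (i', j))) ≤ Lr r (fun j => Real.sqrt 3 * X j) := by
      apply le_of_rpow_le hr0 (Lr_nonneg _ _) (Lr_nonneg _ _)
      rw [Lr_rpow hr0, Lr_rpow hr0]
      have e1 : ∀ i : Fin k, |Lr r (fun j => y i (i', j))| ^ r = ∑ j, |y i (i', j)| ^ r := by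
        intro i
        rw [abs_of_nonneg (Lr_nonneg _ _), Lr_rpow hr0]
      simp_rw [e1]
      rw [Finset.sum_comm]
      refine Finset.sum_le_sum (fun j _ => ?_)
      have h3 : ∑ i, |y i (i', j)| ^ r = Lr r (fun i => y i (i', j)) ^ r := (Lr_rpow hr0 _).symm
      rw [h3]
      apply Real.rpow_le_rpow (Lr_nonneg _ _) _ hr0.le
      rw [abs_of_nonneg (mul_nonneg (Real.sqrt_nonneg _) (hX0 j))]
      have h4 := expect_abs (Finset.univ : Finset (Fin k)) (fun i => y i (i', j))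
      have h5 : Lr r (fun i => y i (i', j)) ^ 2 ≤ (Real.sqrt 3 * X j) ^ 2 := by
        rw [mul_pow, Real.sq_sqrt (by norm_num)]
        exact (Lr_sq_le hr _).trans h4
      exact (abs_le_of_sq_le_sq' h5 (mul_nonneg (Real.sqrt_nonneg _) (hX0 j))).2
    rw [Lr_smul hr0, abs_of_nonneg (Real.sqrt_nonneg _)] at h2
    exact h2.trans (mul_le_mul_of_nonneg_left hXle (Real.sqrt_nonneg _))
  have h8 : Lr r (fun i : Fin k => nr r (y i))
      ≤ Real.sqrt 3 * 𝔼 e : Fin k → ℤˣ, nr r (∑ i, sg (e i) • y i) := by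
    unfold nr
    refine (Lr_sum hr1 (Finset.univ : Finset R)
      (fun i' (i : Fin k) => Lr r (fun j => y i (i', j)))).trans ?_
    rw [Finset.expect_sum_comm, Finset.mul_sum]
    exact Finset.sum_le_sum (fun i' _ => h1 i')
  have h9 : Lr q (fun i : Fin k => nr r (y i))
      ≤ Real.sqrt 3 * 𝔼 e : Fin k → ℤˣ, nr r (∑ i, sg (e i) • y i) :=
    (Lr_anti hr0 hq _).trans h8
  have h10 := pow_le_pow_left₀ (Lr_nonneg _ _) h9 2
  rw [mul_pow, Real.sq_sqrt (by norm_num)] at h10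
  exact h10.trans (mul_le_mul_of_nonneg_left (sq_expect_le _) (by norm_num))

/-- cotype `q` of `ℓ_∞^M` -/
lemma cot_supR {q : ℝ} (hq : 2 ≤ q) (M : ℕ) (k : ℕ) (y : Fin k → Fin M → ℝ) :
    Lr q (fun i => ‖y i‖) ^ 2 ≤ ((M : ℝ) ^ (1 / q)) ^ 2 *
      𝔼 e : Fin k → ℤˣ, ‖∑ i, sg (e i) • y i‖ ^ 2 := by
  have hq0 : 0 < q := by linarith
  set B := 𝔼 e : Fin k → ℤˣ, ‖∑ i, sg (e i) • y i‖ ^ 2 with hB
  have hB0 : 0 ≤ B := Finset.expect_nonneg (fun e _ => sq_nonneg _)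
  have h1 : ∀ i, ‖y i‖ ^ q ≤ ∑ j, |y i j| ^ q := by
    intro i
    have h0 : ‖y i‖ ≤ Lr q (y i) := by
      rw [pi_norm_le_iff_of_nonneg (Lr_nonneg _ _)]
      intro j
      rw [Real.norm_eq_abs]
      exact le_Lr hq0 _ j
    rw [← Lr_rpow hq0]
    exact Real.rpow_le_rpow (norm_nonneg _) h0 hq0.le
  have h2 : Lr q (fun i => ‖y i‖) ≤ (M : ℝ) ^ (1 / q) * Real.sqrt B := by
    apply le_of_rpow_le hq0 (Lr_nonneg _ _) (by positivity)
    rw [Lr_rpow hq0]
    have e1 : ∀ i, |‖y i‖| ^ q = ‖y i‖ ^ q := fun i => by rw [abs_of_nonneg (norm_nonneg _)]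
    simp_rw [e1]
    refine (Finset.sum_le_sum (fun i _ => h1 i)).trans ?_
    rw [Finset.sum_comm]
    have h3 : ∀ j ∈ (Finset.univ : Finset (Fin M)), ∑ i, |y i j| ^ q ≤ Real.sqrt B ^ q := by
      intro j _
      rw [← Lr_rpow hq0 (fun i => y i j)]
      apply Real.rpow_le_rpow (Lr_nonneg _ _) _ hq0.le
      apply Real.le_sqrt_of_sq_le
      refine (Lr_sq_le hq _).trans ?_
      rw [← expect_sq, hB]
      refine Finset.expect_le_expect (fun e _ => ?_)
      have h6 : |∑ i, sg (e i) * y i j| ≤ ‖∑ i, sg (e i) • y i‖ := by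
        have := norm_le_pi_norm (∑ i, sg (e i) • y i) j
        rw [Real.norm_eq_abs] at this
        simpa [Finset.sum_apply] using this
      rw [← sq_abs]
      exact pow_le_pow_left₀ (abs_nonneg _) h6 2
    refine (Finset.sum_le_sum h3).trans (le_of_eq ?_)
    rw [Real.mul_rpow (by positivity) (Real.sqrt_nonneg _), ← Real.rpow_mul (by positivity),
      one_div_mul_cancel hq0.ne', Real.rpow_one]
    simp
  have h4 := pow_le_pow_left₀ (Lr_nonneg _ _) h2 2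
  rwa [mul_pow, Real.sq_sqrt hB0] at h4

lemma Lr_half {J : Type*} [Fintype J] {q : ℝ} (hq : 0 < q) (c : J → ℝ) :
    Lr (q / 2) (fun i => c i ^ 2) = Lr q c ^ 2 := by
  unfold Lr
  have h : ∀ i, |c i ^ 2| ^ (q / 2) = |c i| ^ q := by
    intro i
    rw [abs_pow, ← Real.rpow_natCast, ← Real.rpow_mul (abs_nonneg _)]
    congr 1
    push_cast
    ring
  simp_rw [h]
  rw [← Real.rpow_natCast, ← Real.rpow_mul (by positivity)]
  congr 1
  push_cast
  field_simp

end Pool.Agent.H75.Tp
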