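import Pool.Graph.R_pool_sql_team_668148b0.Helper890.Tp.Cotype

set_option autoImplicit false

namespace Pool.Agent.H75.Tp

open Finset Pool.Agent.Helper890.Tp
open scoped BigOperators

section Lr
variable {J : Type*} [Fintype J]

/-- the `ℓ_r` norm of a vector -/
noncomputable def Lr (r : ℝ) (v : J → ℝ) : ℝ := (∑ j, |v j| ^ r) ^ (1 / r)

lemma Lr_nonneg (r : ℝ) (v : J → ℝ) : 0 ≤ Lr r v := by unfold Lr; positivity

lemma Lr_rpow {r : ℝ} (hr : 0 < r) (v : J → ℝ) : Lr r v ^ r = ∑ j, |v j| ^ r := by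
  unfold Lr
  rw [← Real.rpow_mul (by positivity), one_div_mul_cancel hr.ne', Real.rpow_one]

lemma Lr_add {r : ℝ} (hr : 1 ≤ r) (v w : J → ℝ) :
    Lr r (fun j => v j + w j) ≤ Lr r v + Lr r w :=
  Real.Lp_add_le univ v w hr

lemma Lr_smul {r : ℝ} (hr : 0 < r) (c : ℝ) (v : J → ℝ) :
    Lr r (fun j => c * v j) = |c| * Lr r v := by
  unfold Lr
  simp_rw [abs_mul]
  have h : ∀ j, (|c| * |v j|) ^ r = |c| ^ r * |v j| ^ r := fun j =>
    Real.mul_rpow (abs_nonneg _) (abs_nonneg _)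
  simp_rw [h]
  rw [← Finset.mul_sum, Real.mul_rpow (by positivity) (by positivity),
    ← Real.rpow_mul (abs_nonneg c), mul_one_div_cancel hr.ne', Real.rpow_one]

lemma Lr_zero {r : ℝ} (hr : 0 < r) : Lr r (fun _ : J => (0 : ℝ)) = 0 := by
  have := Lr_smul hr (0 : ℝ) (fun _ : J => (0 : ℝ))
  simpa using this

lemma Lr_sum {r : ℝ} (hr : 1 ≤ r) {S : Type*} (s : Finset S) (v : S → J → ℝ) :
    Lr r (fun j => ∑ k ∈ s, v k j) ≤ ∑ k ∈ s, Lr r (v k) := by
  classical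
  induction s using Finset.induction_on with
  | empty => simp [Lr_zero (lt_of_lt_of_le one_pos hr)]
  | insert i s hi ih =>
    simp only [Finset.sum_insert hi]
    exact (Lr_add hr _ _).trans (add_le_add_right ih _)

lemma le_of_rpow_le {r a b : ℝ} (hr : 0 < r) (ha : 0 ≤ a) (hb : 0 ≤ b) (h : a ^ r ≤ b ^ r) :
    a ≤ b := (Real.rpow_le_rpow_iff ha hb hr).mp h

lemma Lr_mono {r : ℝ} (hr : 0 < r) {v w : J → ℝ} (h : ∀ j, |v j| ≤ |w j|) : Lr r v ≤ Lr r w := by
  apply le_of_rpow_le hr (Lr_nonneg _ _) (Lr_nonneg _ _)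
  rw [Lr_rpow hr, Lr_rpow hr]
  exact Finset.sum_le_sum (fun j _ => Real.rpow_le_rpow (abs_nonneg _) (h j) hr.le)

lemma Lr_abs {r : ℝ} (v : J → ℝ) : Lr r (fun j => |v j|) = Lr r v := by
  unfold Lr
  simp only [abs_abs]

lemma Lr_expect {r : ℝ} (hr : 1 ≤ r) {Ω : Type*} [Fintype Ω] (v : Ω → J → ℝ) :
    Lr r (fun j => 𝔼 w, v w j) ≤ 𝔼 w, Lr r (v w) := by
  have h1 : (fun j => 𝔼 w, v w j) = (fun j => (Fintype.card Ω : ℝ)⁻¹ * ∑ w, v w j) := by
    funext j
    rw [Fintype.expect_eq_sum_div_card, div_eq_inv_mul]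
  rw [h1, Lr_smul (lt_of_lt_of_le one_pos hr), abs_of_nonneg (by positivity),
    Fintype.expect_eq_sum_div_card, div_eq_inv_mul]
  exact mul_le_mul_of_nonneg_left (Lr_sum hr _ _) (by positivity)

lemma le_Lr {r : ℝ} (hr : 0 < r) (v : J → ℝ) (j : J) : |v j| ≤ Lr r v := by
  apply le_of_rpow_le hr (abs_nonneg _) (Lr_nonneg _ _)
  rw [Lr_rpow hr]
  exact Finset.single_le_sum (f := fun j => |v j| ^ r) (fun i _ => by positivity)
    (Finset.mem_univ j)

lemma Lr_eq_zero {r : ℝ} (hr : 0 < r) {v : J → ℝ} (h : Lr r v = 0) (j : J) : v j = 0 := by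
  have := le_Lr hr v j
  rw [h] at this
  exact abs_nonpos_iff.mp this

/-- monotonicity in the exponent -/
lemma Lr_anti {p q : ℝ} (hp : 0 < p) (hpq : p ≤ q) (v : J → ℝ) : Lr q v ≤ Lr p v := by
  have hq : 0 < q := lt_of_lt_of_le hp hpq
  apply le_of_rpow_le hq (Lr_nonneg _ _) (Lr_nonneg _ _)
  rw [Lr_rpow hq]
  rcases (Lr_nonneg p v).eq_or_lt with h0 | h0
  · rw [← h0, Real.zero_rpow hq.ne']
    refine le_of_eq (Finset.sum_eq_zero (fun j _ => ?_))
    rw [Lr_eq_zero hp h0.symm j, abs_zero, Real.zero_rpow hq.ne']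
  · have e : Lr p v ^ q = Lr p v ^ (q - p) * Lr p v ^ p := by
      rw [← Real.rpow_add h0]; congr 1; ring
    rw [e, Lr_rpow hp, Finset.mul_sum]
    refine Finset.sum_le_sum (fun j _ => ?_)
    rcases (abs_nonneg (v j)).eq_or_lt with h1 | h1
    · rw [← h1, Real.zero_rpow hq.ne', Real.zero_rpow hp.ne', mul_zero]
    · have e2 : |v j| ^ q = |v j| ^ (q - p) * |v j| ^ p := by
        rw [← Real.rpow_add h1]; congr 1; ring
      rw [e2]
      exact mul_le_mul_of_nonneg_right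
        (Real.rpow_le_rpow (abs_nonneg _) (le_Lr hp v j) (by linarith)) (by positivity)

lemma Lr_two_sq (v : J → ℝ) : Lr 2 v ^ 2 = ∑ j, v j ^ 2 := by
  have h := Lr_rpow (r := 2) (by norm_num) v
  rw [Real.rpow_two] at h
  rw [h]
  refine Finset.sum_congr rfl (fun j _ => ?_)
  rw [Real.rpow_two, sq_abs]

lemma Lr_sq_le {r : ℝ} (hr : 2 ≤ r) (v : J → ℝ) : Lr r v ^ 2 ≤ ∑ j, v j ^ 2 := by
  rw [← Lr_two_sq]
  exact pow_le_pow_left₀ (Lr_nonneg _ _) (Lr_anti (by norm_num) hr v) 2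

lemma L4_sq_eq (v : J → ℝ) : L4 v ^ 2 = (∑ j, v j ^ 4) ^ (1 / 2 : ℝ) := by
  rw [← L4_pow, ← Real.rpow_natCast (L4 v) 4, ← Real.rpow_mul (L4_nonneg v),
    ← Real.rpow_natCast (L4 v) 2]
  norm_num

/-- interpolation between the exponents two and four -/
lemma Lr_interp {r : ℝ} (hr : 2 < r) (hr4 : r ≤ 4) (v : J → ℝ) :
    Lr r v ^ 2 ≤ (∑ j, v j ^ 2) ^ ((4 - r) / r) * (L4 v ^ 2) ^ (1 - (4 - r) / r) := by
  have hr0 : 0 < r := by linarith
  rw [L4_sq_eq]
  set S2 := ∑ j, v j ^ 2 with hS2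
  set S4 := ∑ j, v j ^ 4 with hS4
  have h20 : 0 ≤ S2 := Finset.sum_nonneg (fun j _ => sq_nonneg _)
  have h40 : 0 ≤ S4 := Finset.sum_nonneg (fun j _ => by positivity)
  have key : ∑ j, |v j| ^ r ≤ S2 ^ ((4 - r) / 2) * S4 ^ ((r - 2) / 2) := by
    rcases hr4.eq_or_lt with h4 | h4
    · subst h4
      norm_num
      rw [hS4]
      refine Finset.sum_le_sum (fun j _ => ?_)
      have := Even.pow_abs (by decide : Even 4) (v j)
      rw [← this]
    · have hpq : (2 / (4 - r)).HolderConjugate (2 / (r - 2)) := by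
        rw [Real.holderConjugate_iff]
        constructor
        · rw [lt_div_iff₀ (by linarith)]; linarith
        · rw [inv_div, inv_div]; ring
      have h := Real.inner_le_Lp_mul_Lq_of_nonneg (univ : Finset J)
        (f := fun j => |v j| ^ (4 - r)) (g := fun j => |v j| ^ (2 * (r - 2))) hpq
        (fun j _ => by positivity) (fun j _ => by positivity)
      have e1 : ∀ j, |v j| ^ (4 - r) * |v j| ^ (2 * (r - 2)) = |v j| ^ r := by
        intro j
        rw [← Real.rpow_add_of_nonneg (abs_nonneg _) (by linarith) (by linarith)]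
        congr 1; ring
      have e2 : ∀ j, (|v j| ^ (4 - r)) ^ (2 / (4 - r)) = v j ^ 2 := by
        intro j
        rw [← Real.rpow_mul (abs_nonneg _), mul_div_cancel₀ _ (by linarith : (4 - r) ≠ 0),
          Real.rpow_two, sq_abs]
      have e3 : ∀ j, (|v j| ^ (2 * (r - 2))) ^ (2 / (r - 2)) = v j ^ 4 := by
        intro j
        rw [← Real.rpow_mul (abs_nonneg _)]
        have : 2 * (r - 2) * (2 / (r - 2)) = 4 := by
          field_simp [(by linarith : (r - 2) ≠ 0)]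
          norm_num
        rw [this]
        have h4' : |v j| ^ (4 : ℝ) = |v j| ^ (4 : ℕ) := by
          rw [← Real.rpow_natCast]; norm_num
        rw [h4', Even.pow_abs (by decide)]
      simp only [e1, e2, e3, one_div_div] at h
      exact h
  have h1 : Lr r v ^ 2 = (∑ j, |v j| ^ r) ^ (2 / r) := by
    unfold Lr
    rw [← Real.rpow_natCast, ← Real.rpow_mul (by positivity)]
    congr 1
    push_cast
    ring
  rw [h1]
  refine (Real.rpow_le_rpow (by positivity) key (by positivity)).trans (le_of_eq ?_)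
  rw [Real.mul_rpow (by positivity) (by positivity), ← Real.rpow_mul h20, ← Real.rpow_mul h40,
    ← Real.rpow_mul h40]
  congr 2
  · field_simp
  · field_simp
    ring

/-- linear form of the interpolation -/
lemma Lr_young {r : ℝ} (hr : 2 < r) (hr4 : r ≤ 4) (v : J → ℝ) {μ : ℝ} (hμ : 0 < μ) :
    Lr r v ^ 2 ≤ (4 - r) / r * μ ^ (1 - (4 - r) / r) * (∑ j, v j ^ 2) +
      (1 - (4 - r) / r) * μ ^ (-((4 - r) / r)) * L4 v ^ 2 := by
  have hr0 : 0 < r := by linarith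
  set θ := (4 - r) / r with hθ
  have hθ0 : 0 ≤ θ := div_nonneg (by linarith) hr0.le
  have hθ1 : θ ≤ 1 := by rw [hθ, div_le_one hr0]; linarith
  set x := ∑ j, v j ^ 2 with hx
  have hx0 : 0 ≤ x := Finset.sum_nonneg (fun j _ => sq_nonneg _)
  set y := L4 v ^ 2 with hy
  have hy0 : 0 ≤ y := sq_nonneg _
  have h := Real.geom_mean_le_arith_mean2_weighted (w₁ := θ) (w₂ := 1 - θ)
    (p₁ := μ ^ (1 - θ) * x) (p₂ := μ ^ (-θ) * y) hθ0 (by linarith) (by positivity) (by positivity)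
    (by ring)
  have e : (μ ^ (1 - θ) * x) ^ θ * (μ ^ (-θ) * y) ^ (1 - θ) = x ^ θ * y ^ (1 - θ) := by
    rw [Real.mul_rpow (by positivity) hx0, Real.mul_rpow (by positivity) hy0,
      ← Real.rpow_mul hμ.le, ← Real.rpow_mul hμ.le]
    have : μ ^ ((1 - θ) * θ) * μ ^ (-θ * (1 - θ)) = 1 := by
      rw [← Real.rpow_add hμ]
      have : (1 - θ) * θ + -θ * (1 - θ) = 0 := by ring
      rw [this, Real.rpow_zero]
    calc μ ^ ((1 - θ) * θ) * x ^ θ * (μ ^ (-θ * (1 - θ)) * y ^ (1 - θ))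
        = (μ ^ ((1 - θ) * θ) * μ ^ (-θ * (1 - θ))) * (x ^ θ * y ^ (1 - θ)) := by ring
      _ = _ := by rw [this, one_mul]
  rw [e] at h
  have h2 := Lr_interp hr hr4 v
  linarith

end Lr

end Pool.Agent.H75.Tp
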