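import Pool.Agent.H75.Tp.Lr

set_option autoImplicit false

namespace Pool.Agent.H75.Tp

open Finset Pool.Agent.Helper890.Tp
open scoped BigOperators

section N
variable {R J : Type*} [Fintype R] [Fintype J]

/-- the norm of `ℓ₁(ℓ_r)` -/
noncomputable def nr (r : ℝ) (x : R × J → ℝ) : ℝ := ∑ i, Lr r (fun j => x (i, j))

lemma nr_nonneg (r : ℝ) (x : R × J → ℝ) : 0 ≤ nr r x := Finset.sum_nonneg (fun _ _ => Lr_nonneg _ _)

lemma nr_add {r : ℝ} (hr : 1 ≤ r) (x y : R × J → ℝ) : nr r (x + y) ≤ nr r x + nr r y := by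
  unfold nr
  rw [← Finset.sum_add_distrib]
  exact Finset.sum_le_sum (fun i _ => Lr_add hr _ _)

lemma nr_smul {r : ℝ} (hr : 0 < r) (c : ℝ) (x : R × J → ℝ) : nr r (c • x) = |c| * nr r x := by
  unfold nr
  rw [Finset.mul_sum]
  exact Finset.sum_congr rfl (fun i _ => Lr_smul hr _ _)

lemma nr_eq_zero {r : ℝ} (hr : 0 < r) {x : R × J → ℝ} (h : nr r x = 0) : x = 0 := by
  unfold nr at h
  rw [Finset.sum_eq_zero_iff_of_nonneg (fun i _ => Lr_nonneg _ _)] at h
  funext a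
  exact Lr_eq_zero hr (h a.1 (Finset.mem_univ _)) a.2

lemma nr_sq_le (r : ℝ) (x : R × J → ℝ) :
    nr r x ^ 2 ≤ Fintype.card R * ∑ i, Lr r (fun j => x (i, j)) ^ 2 := by
  unfold nr
  have := sq_sum_le_card_mul_sum_sq (s := (Finset.univ : Finset R))
    (f := fun i => Lr r (fun j => x (i, j)))
  simpa using this

lemma nr_sq_le' {r : ℝ} (hr : 2 ≤ r) (x : R × J → ℝ) :
    nr r x ^ 2 ≤ Fintype.card R * ∑ a, x a ^ 2 := by
  refine (nr_sq_le r x).trans (mul_le_mul_of_nonneg_left ?_ (by positivity))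
  rw [Fintype.sum_prod_type]
  exact Finset.sum_le_sum (fun i _ => Lr_sq_le hr _)

/-- if only few rows are non-zero -/
lemma nr_sq_le_rows {r : ℝ} (hr : 2 ≤ r) (x : R × J → ℝ) (s : Finset R)
    (hs : ∀ i, i ∉ s → ∀ j, x (i, j) = 0) :
    nr r x ^ 2 ≤ s.card * ∑ a, x a ^ 2 := by
  have h1 : nr r x = ∑ i ∈ s, Lr r (fun j => x (i, j)) := by
    unfold nr
    symm
    apply Finset.sum_subset (Finset.subset_univ s)
    intro i _ hi
    have : (fun j => x (i, j)) = fun _ => (0 : ℝ) := funext (hs i hi)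
    rw [this, Lr_zero (by linarith)]
  rw [h1]
  refine (sq_sum_le_card_mul_sum_sq).trans (mul_le_mul_of_nonneg_left ?_ (by positivity))
  rw [Fintype.sum_prod_type]
  refine (Finset.sum_le_sum (fun i _ => Lr_sq_le hr _)).trans ?_
  exact Finset.sum_le_univ_sum_of_nonneg (fun i => Finset.sum_nonneg (fun j _ => sq_nonneg _))

lemma le_nr {r : ℝ} (hr : 0 < r) (x : R × J → ℝ) (f : R → J) : ∑ i, |x (i, f i)| ≤ nr r x :=
  Finset.sum_le_sum (fun i _ => le_Lr hr (fun j => x (i, j)) (f i))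

lemma nr_add3_sq {r : ℝ} (hr : 1 ≤ r) (x y z : R × J → ℝ) :
    nr r (x + y + z) ^ 2 ≤ 3 * (nr r x ^ 2 + nr r y ^ 2 + nr r z ^ 2) := by
  have h1 := nr_add hr (x + y) z
  have h2 := nr_add hr x y
  have h0 := nr_nonneg r (x + y + z)
  have h3 : nr r (x + y + z) ^ 2 ≤ (nr r x + nr r y + nr r z) ^ 2 :=
    pow_le_pow_left₀ h0 (by linarith) 2
  nlinarith [sq_nonneg (nr r x - nr r y), sq_nonneg (nr r y - nr r z),
    sq_nonneg (nr r x - nr r z)]

/-- linear form of the interpolation, for the norm of `ℓ₁(ℓ_r)` -/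
lemma nr_young {r : ℝ} (hr : 2 < r) (hr4 : r ≤ 4) (x : R × J → ℝ) {μ : ℝ} (hμ : 0 < μ) :
    nr r x ^ 2 ≤ (4 - r) / r * μ ^ (1 - (4 - r) / r) * (Fintype.card R * ∑ a, x a ^ 2) +
      (1 - (4 - r) / r) * μ ^ (-((4 - r) / r)) *
        (Fintype.card R * ∑ i, L4 (fun j => x (i, j)) ^ 2) := by
  refine (nr_sq_le r x).trans ?_
  rw [Fintype.sum_prod_type]
  have h : ∑ i, Lr r (fun j => x (i, j)) ^ 2 ≤
      (4 - r) / r * μ ^ (1 - (4 - r) / r) * (∑ i, ∑ j, x (i, j) ^ 2) +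
      (1 - (4 - r) / r) * μ ^ (-((4 - r) / r)) * ∑ i, L4 (fun j => x (i, j)) ^ 2 := by
    rw [Finset.mul_sum, Finset.mul_sum, ← Finset.sum_add_distrib]
    exact Finset.sum_le_sum (fun i _ => Lr_young hr hr4 _ hμ)
  refine (mul_le_mul_of_nonneg_left h (by positivity)).trans (le_of_eq ?_)
  ring

end N

variable {R J : Type*} [Fintype R] [DecidableEq R] [Fintype J] [Nonempty J]

noncomputable def PsiR (r : ℝ) (A : R × J → R × J → ℝ) (I : Finset R) : ℝ :=
  𝔼 p : R → J, 𝔼 d : R → ℤˣ, nr r (ap A I p d) ^ 2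

lemma PsiR_add3 {r : ℝ} (hr : 1 ≤ r) (A B C : R × J → R × J → ℝ) (I : Finset R) :
    PsiR r (fun a b => A a b + B a b + C a b) I ≤ 3 * (PsiR r A I + PsiR r B I + PsiR r C I) := by
  unfold PsiR
  rw [← Finset.expect_add_distrib, ← Finset.expect_add_distrib, Finset.mul_expect]
  refine Finset.expect_le_expect (fun p _ => ?_)
  rw [← Finset.expect_add_distrib, ← Finset.expect_add_distrib, Finset.mul_expect]
  refine Finset.expect_le_expect (fun d _ => ?_)
  rw [ap_add3]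
  exact nr_add3_sq hr _ _ _

/-- the second moment -/
noncomputable def Q2 (A : R × J → R × J → ℝ) (I : Finset R) : ℝ :=
  𝔼 p : R → J, 𝔼 d : R → ℤˣ, (Fintype.card R * ∑ a, ap A I p d a ^ 2)

/-- the moment with the norm of `ℓ₄` -/
noncomputable def Q4 (A : R × J → R × J → ℝ) (I : Finset R) : ℝ :=
  𝔼 p : R → J, 𝔼 d : R → ℤˣ, (Fintype.card R * ∑ i', L4 (fun j' => ap A I p d (i', j')) ^ 2)

lemma Q2_le (A : R × J → R × J → ℝ) (I : Finset R)
    (hRJ : Fintype.card R = Fintype.card J) :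
    Q2 A I ≤ ∑ i ∈ I, ∑ j, ∑ a, A a (i, j) ^ 2 := by
  unfold Q2
  have h1 : ∀ p : R → J, 𝔼 d : R → ℤˣ, (Fintype.card R * ∑ a, ap A I p d a ^ 2)
      ≤ (Fintype.card R : ℝ) * ∑ i ∈ I, ∑ a, A a (i, p i) ^ 2 := by
    intro p
    rw [← Finset.mul_expect, expect_ap_sq, Finset.sum_comm]
  refine (Finset.expect_le_expect (fun p _ => h1 p)).trans ?_
  rw [← Finset.mul_expect, Finset.expect_sum_comm, Finset.mul_sum]
  refine Finset.sum_le_sum (fun i _ => ?_)
  rw [expect_coord i (fun x => ∑ a, A a (i, x) ^ 2), Fintype.expect_eq_sum_div_card, hRJ]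
  have : (0 : ℝ) < Fintype.card J := by exact_mod_cast Fintype.card_pos
  rw [mul_div_cancel₀ _ this.ne']

lemma PsiR_le_Q2 {r : ℝ} (hr : 2 ≤ r) (A : R × J → R × J → ℝ) (I : Finset R) :
    PsiR r A I ≤ Q2 A I := by
  unfold PsiR Q2
  exact Finset.expect_le_expect (fun p _ => Finset.expect_le_expect (fun d _ => nr_sq_le' hr _))

lemma PsiR_le_comb {r : ℝ} (hr : 2 < r) (hr4 : r ≤ 4) (A : R × J → R × J → ℝ) (I : Finset R)
    {μ : ℝ} (hμ : 0 < μ) :
    PsiR r A I ≤ (4 - r) / r * μ ^ (1 - (4 - r) / r) * Q2 A I +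
      (1 - (4 - r) / r) * μ ^ (-((4 - r) / r)) * Q4 A I := by
  unfold PsiR Q2 Q4
  rw [Finset.mul_expect, Finset.mul_expect, ← Finset.expect_add_distrib]
  refine Finset.expect_le_expect (fun p _ => ?_)
  rw [Finset.mul_expect, Finset.mul_expect, ← Finset.expect_add_distrib]
  exact Finset.expect_le_expect (fun d _ => nr_young hr hr4 _ hμ)

lemma PsiR_le_rows {r : ℝ} (hr : 2 ≤ r) (A : R × J → R × J → ℝ) (I : Finset R) (ρ : ℝ)
    (hcol : ∀ b, ∑ a, A a b ^ 2 ≤ 1)
    (hρ : ∀ b, (((Finset.univ.filter (fun a => A a b ≠ 0)).card : ℕ) : ℝ) ≤ ρ) :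
    PsiR r A I ≤ (I.card * ρ) * I.card := by
  classical
  unfold PsiR
  have h1 : ∀ p : R → J, 𝔼 d : R → ℤˣ, nr r (ap A I p d) ^ 2 ≤ (I.card * ρ) * I.card := by
    intro p
    set s : Finset R := I.biUnion (fun i => (Finset.univ.filter (fun a => A a (i, p i) ≠ 0)).image
      Prod.fst) with hs
    have hcard : (s.card : ℝ) ≤ I.card * ρ := by
      have h2 : s.card ≤ ∑ i ∈ I, (Finset.univ.filter (fun a => A a (i, p i) ≠ 0)).card := by
        refine Finset.card_biUnion_le.trans (Finset.sum_le_sum (fun i _ => Finset.card_image_le))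
      have h3 : (s.card : ℝ) ≤ ∑ i ∈ I,
          (((Finset.univ.filter (fun a => A a (i, p i) ≠ 0)).card : ℕ) : ℝ) := by exact_mod_cast h2
      refine h3.trans ((Finset.sum_le_sum (fun i _ => hρ (i, p i))).trans ?_)
      simp
    have hρ0 : (0 : ℝ) ≤ I.card * ρ := le_trans (by positivity) hcard
    have h4 : ∀ d : R → ℤˣ, nr r (ap A I p d) ^ 2 ≤ (I.card * ρ) * ∑ a, ap A I p d a ^ 2 := by
      intro d
      refine (nr_sq_le_rows hr (ap A I p d) s ?_).trans
        (mul_le_mul_of_nonneg_right hcard (Finset.sum_nonneg (fun a _ => sq_nonneg _)))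
      intro i' hi' j'
      unfold ap
      refine Finset.sum_eq_zero (fun i hi => ?_)
      have : A (i', j') (i, p i) = 0 := by
        by_contra hne
        apply hi'
        rw [hs, Finset.mem_biUnion]
        refine ⟨i, hi, ?_⟩
        rw [Finset.mem_image]
        exact ⟨(i', j'), by simp [hne], rfl⟩
      rw [this, mul_zero]
    refine (Finset.expect_le_expect (fun d _ => h4 d)).trans ?_
    rw [← Finset.mul_expect, expect_ap_sq, Finset.sum_comm]
    refine mul_le_mul_of_nonneg_left ?_ hρ0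
    refine (Finset.sum_le_sum (fun i _ => hcol (i, p i))).trans ?_
    simp
  refine (Finset.expect_le_expect (fun p _ => h1 p)).trans ?_
  rw [Fintype.expect_const]

/-- bound for the fourth moments, one block -/
lemma Q4_le (A : R × J → R × J → ℝ) (I : Finset R) (lam : ℝ)
    (hRJ : Fintype.card R = Fintype.card J)
    (hrow : ∀ a, ∑ b, A a b ^ 2 ≤ 1)
    (hlam : ∀ a b, A a b ^ 2 ≤ lam) :
    Q4 A I ≤ ∑ i', Real.sqrt (3 * (1 + lam * Fintype.card R) *
      ∑ j', ∑ i ∈ I, ∑ j, A (i', j') (i, j) ^ 2) := by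
  set m : ℝ := (Fintype.card R : ℝ) with hm
  have hm0 : 0 < m := by
    rw [hm, hRJ]; exact_mod_cast Fintype.card_pos
  have hmJ : (Fintype.card J : ℝ) = m := by rw [hm, hRJ]
  -- the fourth moment of a row
  have key : ∀ i' : R, 𝔼 p : R → J, 𝔼 d : R → ℤˣ, L4 (fun j' => ap A I p d (i', j')) ^ 4
      ≤ 3 * (1 + lam * m) * (∑ j', ∑ i ∈ I, ∑ j, A (i', j') (i, j) ^ 2) / m ^ 2 := by
    intro i'
    simp_rw [L4_pow]
    have h1 : ∀ p : R → J, 𝔼 d : R → ℤˣ, ∑ j', ap A I p d (i', j') ^ 4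
        ≤ ∑ j', 3 * (∑ i ∈ I, A (i', j') (i, p i) ^ 2) ^ 2 := by
      intro p
      rw [Finset.expect_sum_comm]
      exact Finset.sum_le_sum (fun j' _ => expect_four I (fun i => A (i', j') (i, p i)))
    refine (Finset.expect_le_expect (fun p _ => h1 p)).trans ?_
    rw [Finset.expect_sum_comm, Finset.mul_sum, Finset.sum_div]
    refine Finset.sum_le_sum (fun j' _ => ?_)
    rw [← Finset.mul_expect]
    have h2 := expect_sum_sq (J := J) I (fun i x => A (i', j') (i, x) ^ 2)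
      (fun i x => sq_nonneg _)
    set V : ℝ := ∑ i ∈ I, ∑ j, A (i', j') (i, j) ^ 2 with hV
    have hV0 : 0 ≤ V := Finset.sum_nonneg (fun i _ => Finset.sum_nonneg (fun j _ => sq_nonneg _))
    have hV1 : V ≤ 1 := by
      refine le_trans ?_ (hrow (i', j'))
      rw [Fintype.sum_prod_type]
      exact Finset.sum_le_univ_sum_of_nonneg (fun i => Finset.sum_nonneg (fun j _ => sq_nonneg _))
    have h3 : ∑ i ∈ I, 𝔼 x, A (i', j') (i, x) ^ 2 = V / m := by
      rw [hV, Finset.sum_div]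
      refine Finset.sum_congr rfl (fun i _ => ?_)
      rw [Fintype.expect_eq_sum_div_card, hmJ]
    have h4 : ∑ i ∈ I, 𝔼 x, (A (i', j') (i, x) ^ 2) ^ 2 ≤ lam * V / m := by
      have : ∀ i ∈ I, 𝔼 x, (A (i', j') (i, x) ^ 2) ^ 2 ≤ lam * 𝔼 x, A (i', j') (i, x) ^ 2 := by
        intro i _
        rw [Finset.mul_expect]
        refine Finset.expect_le_expect (fun x _ => ?_)
        rw [sq (A (i', j') (i, x) ^ 2)]
        exact mul_le_mul_of_nonneg_right (hlam _ _) (sq_nonneg _)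
      refine (Finset.sum_le_sum this).trans ?_
      rw [← Finset.mul_sum, h3, mul_div_assoc]
    rw [h3] at h2
    have h5 : (V / m) ^ 2 ≤ V / m ^ 2 := by
      rw [div_pow]
      apply div_le_div_of_nonneg_right _ (by positivity)
      nlinarith
    have h6 : 3 * (1 + lam * m) * V / m ^ 2 = 3 * (lam * V / m + V / m ^ 2) := by
      field_simp
      ring
    rw [h6]
    linarith [h2, h4, h5]
  -- pass to the norm
  have h7 : Q4 A I = m * ∑ i', 𝔼 p : R → J, 𝔼 d : R → ℤˣ,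
      L4 (fun j' => ap A I p d (i', j')) ^ 2 := by
    unfold Q4
    simp_rw [← Finset.mul_expect]
    congr 1
    rw [← Finset.expect_sum_comm]
    refine Finset.expect_congr rfl (fun p _ => ?_)
    rw [Finset.expect_sum_comm]
  rw [h7, Finset.mul_sum]
  refine Finset.sum_le_sum (fun i' _ => ?_)
  apply Real.le_sqrt_of_sq_le
  rw [mul_pow]
  have h8 : (𝔼 p : R → J, 𝔼 d : R → ℤˣ, L4 (fun j' => ap A I p d (i', j')) ^ 2) ^ 2
      ≤ 𝔼 p : R → J, 𝔼 d : R → ℤˣ, L4 (fun j' => ap A I p d (i', j')) ^ 4 := by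
    refine (sq_expect_le _).trans (Finset.expect_le_expect (fun p _ => ?_))
    refine (sq_expect_le _).trans (Finset.expect_le_expect (fun d _ => ?_))
    rw [← pow_mul]
  calc m ^ 2 * (𝔼 p : R → J, 𝔼 d : R → ℤˣ, L4 (fun j' => ap A I p d (i', j')) ^ 2) ^ 2
      ≤ m ^ 2 * (3 * (1 + lam * m) * (∑ j', ∑ i ∈ I, ∑ j, A (i', j') (i, j) ^ 2) / m ^ 2) :=
        mul_le_mul_of_nonneg_left (h8.trans (key i')) (by positivity)
    _ = 3 * (1 + lam * m) * ∑ j', ∑ i ∈ I, ∑ j, A (i', j') (i, j) ^ 2 := by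
        field_simp

lemma sum_Q2 {K : Type*} [Fintype K] [DecidableEq K] (A : R × J → R × J → ℝ) (c : R → K)
    (hRJ : Fintype.card R = Fintype.card J) :
    ∑ k, Q2 A (univ.filter (fun i => c i = k)) ≤ ∑ b, ∑ a, A a b ^ 2 := by
  refine (Finset.sum_le_sum (fun k _ => Q2_le A _ hRJ)).trans (le_of_eq ?_)
  rw [sum_blocks c (fun i => ∑ j, ∑ a, A a (i, j) ^ 2), Fintype.sum_prod_type]

lemma sum_Q4 {K : Type*} [Fintype K] [DecidableEq K] (A : R × J → R × J → ℝ) (c : R → K)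
    (lam : ℝ) (hRJ : Fintype.card R = Fintype.card J) (hlam0 : 0 ≤ lam)
    (hrow : ∀ a, ∑ b, A a b ^ 2 ≤ 1)
    (hlam : ∀ a b, A a b ^ 2 ≤ lam) :
    ∑ k, Q4 A (univ.filter (fun i => c i = k))
      ≤ Real.sqrt (Fintype.card K * Fintype.card R *
        (3 * (1 + lam * Fintype.card R) * (Fintype.card R) ^ 2)) := by
  refine (Finset.sum_le_sum (fun k _ => Q4_le A _ lam hRJ hrow hlam)).trans ?_
  apply Real.le_sqrt_of_sq_le
  rw [← Finset.sum_product']
  refine sq_sum_le_card_mul_sum_sq.trans ?_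
  rw [Finset.card_product]
  simp only [Finset.card_univ]
  push_cast
  refine mul_le_mul_of_nonneg_left ?_ (by positivity)
  have hW : ∀ (k : K) (i' : R), 0 ≤ 3 * (1 + lam * (Fintype.card R : ℝ)) *
      ∑ j', ∑ i ∈ univ.filter (fun i => c i = k), ∑ j, A (i', j') (i, j) ^ 2 := by
    intro k i'
    refine mul_nonneg (by positivity) ?_
    exact Finset.sum_nonneg (fun _ _ => Finset.sum_nonneg (fun _ _ =>
      Finset.sum_nonneg (fun _ _ => sq_nonneg _)))
  have h1 : ∀ x ∈ (univ : Finset K) ×ˢ (univ : Finset R),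
      Real.sqrt (3 * (1 + lam * (Fintype.card R : ℝ)) *
      ∑ j', ∑ i ∈ univ.filter (fun i => c i = x.1), ∑ j, A (x.2, j') (i, j) ^ 2) ^ 2
      = 3 * (1 + lam * (Fintype.card R : ℝ)) *
      ∑ j', ∑ i ∈ univ.filter (fun i => c i = x.1), ∑ j, A (x.2, j') (i, j) ^ 2 :=
    fun x _ => Real.sq_sqrt (hW x.1 x.2)
  rw [Finset.sum_congr rfl h1, ← Finset.mul_sum]
  refine mul_le_mul_of_nonneg_left ?_ (by positivity)
  rw [Finset.sum_product_right]
  have h2 : ∀ i' : R, ∑ k, ∑ j' : J, ∑ i ∈ univ.filter (fun i => c i = k), ∑ j, A (i', j') (i, j) ^ 2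
      ≤ Fintype.card R := by
    intro i'
    rw [Finset.sum_comm, hRJ]
    have : ∀ j' ∈ (univ : Finset J), ∑ k, ∑ i ∈ univ.filter (fun i => c i = k),
        ∑ j, A (i', j') (i, j) ^ 2 ≤ 1 := by
      intro j' _
      rw [sum_blocks c (fun i => ∑ j, A (i', j') (i, j) ^ 2)]
      have := hrow (i', j')
      rwa [Fintype.sum_prod_type] at this
    refine (Finset.sum_le_sum this).trans ?_
    simp
  refine (Finset.sum_le_sum (fun i' _ => h2 i')).trans ?_
  simp [sq]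

lemma sum_rows {r : ℝ} (hr : 2 ≤ r) {K : Type*} [Fintype K] [DecidableEq K]
    (A : R × J → R × J → ℝ) (c : R → K)
    (ρ s : ℝ) (hcol : ∀ b, ∑ a, A a b ^ 2 ≤ 1) (hρ0 : 0 ≤ ρ)
    (hρ : ∀ b, (((Finset.univ.filter (fun a => A a b ≠ 0)).card : ℕ) : ℝ) ≤ ρ) (hs0 : 0 ≤ s)
    (hs : ∀ k, (((univ.filter (fun i => c i = k)).card : ℕ) : ℝ) ≤ s) :
    ∑ k, PsiR r A (univ.filter (fun i => c i = k)) ≤ Fintype.card K * (s * ρ * s) := by
  have h : ∀ k ∈ (univ : Finset K), PsiR r A (univ.filter (fun i => c i = k)) ≤ s * ρ * s := by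
    intro k _
    refine (PsiR_le_rows hr A (univ.filter (fun i => c i = k)) ρ hcol hρ).trans ?_
    have h1 := hs k
    have h2 : (0 : ℝ) ≤ (((univ.filter (fun i => c i = k)).card : ℕ) : ℝ) := by positivity
    have h3 : (((univ.filter (fun i => c i = k)).card : ℕ) : ℝ) * ρ ≤ s * ρ :=
      mul_le_mul_of_nonneg_right h1 hρ0
    exact mul_le_mul h3 h1 h2 (by positivity)
  refine (Finset.sum_le_sum h).trans ?_
  simp

/-- a lower bound for the random vector -/
lemma lowerR {r : ℝ} (hr : 0 < r) (P : R × J → R × J → ℝ)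
    (hRJ : Fintype.card R = Fintype.card J) (htr0 : 0 ≤ ∑ a, P a a) :
    ((∑ a, P a a) / Fintype.card R) ^ 2 ≤ PsiR r P univ := by
  have hm0 : (0 : ℝ) < Fintype.card R := by
    rw [hRJ]; exact_mod_cast Fintype.card_pos
  have h1 : (∑ a, P a a) / Fintype.card R ≤ 𝔼 p : R → J, 𝔼 d : R → ℤˣ, nr r (ap P univ p d) := by
    have h2 : 𝔼 p : R → J, 𝔼 d : R → ℤˣ, ∑ i, sg (d i) * ap P univ p d (i, p i)
        ≤ 𝔼 p : R → J, 𝔼 d : R → ℤˣ, nr r (ap P univ p d) := by
      refine Finset.expect_le_expect (fun p _ => Finset.expect_le_expect (fun d _ => ?_))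
      refine le_trans (Finset.sum_le_sum (fun i _ => ?_)) (le_nr hr (ap P univ p d) p)
      refine (le_abs_self _).trans ?_
      rw [abs_mul, sg_abs, one_mul]
    refine le_trans (le_of_eq ?_) h2
    have h3 : ∀ p : R → J, 𝔼 d : R → ℤˣ, ∑ i, sg (d i) * ap P univ p d (i, p i)
        = ∑ i, P (i, p i) (i, p i) := by
      intro p
      rw [Finset.expect_sum_comm]
      refine Finset.sum_congr rfl (fun i _ => ?_)
      have := expect_sg_sum univ (fun k => P (i, p i) (k, p k)) i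
      rw [if_pos (Finset.mem_univ _)] at this
      exact this
    simp_rw [h3]
    rw [Finset.expect_sum_comm]
    have h4 : ∀ i : R, 𝔼 p : R → J, P (i, p i) (i, p i)
        = (∑ j, P (i, j) (i, j)) / Fintype.card R := by
      intro i
      rw [expect_coord i (fun x => P (i, x) (i, x)), Fintype.expect_eq_sum_div_card, hRJ]
    simp_rw [h4]
    rw [← Finset.sum_div, Fintype.sum_prod_type]
  have h5 : (𝔼 p : R → J, 𝔼 d : R → ℤˣ, nr r (ap P univ p d)) ^ 2 ≤ PsiR r P univ := by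
    unfold PsiR
    refine (sq_expect_le _).trans (Finset.expect_le_expect (fun p _ => ?_))
    exact sq_expect_le _
  exact (pow_le_pow_left₀ (by positivity) h1 2).trans h5

/-- the type 2 inequality for a set of vectors, in squared form -/
def T2r (r : ℝ) (E : Set (R × J → ℝ)) (T2c : ℝ) : Prop :=
  ∀ (K : ℕ) (y : Fin K → R × J → ℝ), (∀ k, y k ∈ E) →
    𝔼 e : Fin K → ℤˣ, nr r (∑ k, sg (e k) • y k) ^ 2 ≤ T2c * ∑ k, nr r (y k) ^ 2

lemma type_stepR {r : ℝ} (P : R × J → R × J → ℝ) (E : Set (R × J → ℝ)) (T : ℝ)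
    (hT : T2r r E T)
    (hE : ∀ (I : Finset R) (p : R → J) (d : R → ℤˣ), ap P I p d ∈ E)
    {K : ℕ} (c : R → Fin K) :
    PsiR r P univ ≤ T * ∑ k, PsiR r P (univ.filter (fun i => c i = k)) := by
  classical
  have h1 : ∀ (p : R → J) (d : R → ℤˣ),
      𝔼 e : Fin K → ℤˣ, nr r (ap P univ p (d * fun i => e (c i))) ^ 2
      ≤ T * ∑ k, nr r (ap P (univ.filter (fun i => c i = k)) p d) ^ 2 := by
    intro p d
    refine le_trans (le_of_eq ?_) (hT K (fun k => ap P (univ.filter (fun i => c i = k)) p d)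
      (fun k => hE _ _ _))
    refine Finset.expect_congr rfl (fun e _ => ?_)
    congr 2
    funext a
    rw [Finset.sum_apply]
    simp only [Pi.smul_apply, smul_eq_mul, ap]
    rw [← Finset.sum_fiberwise (Finset.univ : Finset R) c]
    refine Finset.sum_congr rfl (fun k _ => ?_)
    rw [Finset.mul_sum]
    refine Finset.sum_congr rfl (fun i hi => ?_)
    rw [Finset.mem_filter] at hi
    rw [Pi.mul_apply, sg_mul, hi.2]
    ring
  have h2 : ∀ p : R → J, 𝔼 d : R → ℤˣ, nr r (ap P univ p d) ^ 2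
      ≤ T * ∑ k, 𝔼 d : R → ℤˣ, nr r (ap P (univ.filter (fun i => c i = k)) p d) ^ 2 := by
    intro p
    have h3 : 𝔼 d : R → ℤˣ, nr r (ap P univ p d) ^ 2
        = 𝔼 d : R → ℤˣ, 𝔼 e : Fin K → ℤˣ, nr r (ap P univ p (d * fun i => e (c i))) ^ 2 := by
      rw [Finset.expect_comm]
      have : ∀ e : Fin K → ℤˣ, 𝔼 d : R → ℤˣ, nr r (ap P univ p (d * fun i => e (c i))) ^ 2
          = 𝔼 d : R → ℤˣ, nr r (ap P univ p d) ^ 2 :=
        fun e => expect_mulRight (fun i => e (c i)) (fun d => nr r (ap P univ p d) ^ 2)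
      simp_rw [this]
      rw [Fintype.expect_const]
    rw [h3]
    refine (Finset.expect_le_expect (fun d _ => h1 p d)).trans (le_of_eq ?_)
    rw [← Finset.mul_expect, Finset.expect_sum_comm]
  unfold PsiR
  refine (Finset.expect_le_expect (fun p _ => h2 p)).trans (le_of_eq ?_)
  rw [← Finset.mul_expect, Finset.expect_sum_comm]

end Pool.Agent.H75.Tp
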