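import Pool.Agent.H75.Tp.Psi

set_option autoImplicit false

namespace Pool.Agent.H75.Tp

open Finset Pool.Agent.Helper890.Tp
open scoped BigOperators

section
variable {R J : Type*} [Fintype R] [DecidableEq R] [Fintype J] [Nonempty J]

/-- Main estimate at a fixed scale. -/
theorem scale_estimateR {r : ℝ} (hr : 2 < r) (hr4 : r ≤ 4) (P : R × J → R × J → ℝ)
    (E : Set (R × J → ℝ)) (T : ℝ) (hT : T2r r E T)
    (hT0 : 0 ≤ T)
    (hE : ∀ (I : Finset R) (p : R → J) (d : R → ℤˣ), ap P I p d ∈ E)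
    (hRJ : Fintype.card R = Fintype.card J)
    (htr : 0 ≤ ∑ a, P a a)
    (hcol : ∀ b, ∑ a, P a b ^ 2 ≤ 1) (hrow : ∀ a, ∑ b, P a b ^ 2 ≤ 1)
    {K : ℕ} (c : R → Fin K) (s M : ℝ) (hs0 : 0 < s) (hM : 1 ≤ M)
    (hs : ∀ k, (((univ.filter (fun i => c i = k)).card : ℕ) : ℝ) ≤ s)
    (hKs : (K : ℝ) * s ≤ 2 * Fintype.card R)
    (β : ℝ) (hβ : ∑ b, ∑ a, (if s / (M * Fintype.card R) < P a b ^ 2 ∧
      P a b ^ 2 ≤ s * M / Fintype.card R then P a b ^ 2 else 0) ≤ β * (Fintype.card R) ^ 2) :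
    ((∑ a, P a a) / Fintype.card R) ^ 2 ≤ 3 * T * (Fintype.card R : ℝ) ^ 2 *
      (Real.sqrt (6 * (1 / s + 1 / M)) ^ (1 - (4 - r) / r) + β + 2 / M) := by
  have hr0 : 0 < r := by linarith
  set m : ℝ := (Fintype.card R : ℝ) with hm
  have hm0 : (0 : ℝ) < m := by
    rw [hm, hRJ]; exact_mod_cast Fintype.card_pos
  have hM0 : 0 < M := by linarith
  set l1 : ℝ := s / (M * m) with hl1
  set l2 : ℝ := s * M / m with hl2
  have hl1pos : 0 < l1 := by positivity
  have hl2pos : 0 < l2 := by positivity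
  set A : R × J → R × J → ℝ := fun a b => if P a b ^ 2 ≤ l1 then P a b else 0 with hA
  set B : R × J → R × J → ℝ := fun a b => if l1 < P a b ^ 2 ∧ P a b ^ 2 ≤ l2 then P a b else 0
    with hB
  set C : R × J → R × J → ℝ := fun a b => if ¬ (P a b ^ 2 ≤ l1) ∧ ¬ (P a b ^ 2 ≤ l2)
    then P a b else 0 with hC
  have hPABC : P = fun a b => A a b + B a b + C a b := by
    funext a b
    simp only [hA, hB, hC]
    by_cases h1 : P a b ^ 2 ≤ l1
    · simp [h1]
    · by_cases h2 : P a b ^ 2 ≤ l2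
      · simp [h1, h2]
      · simp [h1, h2]
  -- bounds
  have hAsq : ∀ a b, A a b ^ 2 ≤ P a b ^ 2 := by
    intro a b
    simp only [hA]
    split_ifs
    · exact le_rfl
    · simpa using sq_nonneg (P a b)
  have hCsq : ∀ a b, C a b ^ 2 ≤ P a b ^ 2 := by
    intro a b
    simp only [hC]
    split_ifs
    · exact le_rfl
    · simpa using sq_nonneg (P a b)
  have hAl : ∀ a b, A a b ^ 2 ≤ l1 := by
    intro a b
    simp only [hA]
    split_ifs with h
    · exact h
    · simpa using hl1pos.le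
  set μ : ℝ := Real.sqrt (6 * (1 / s + 1 / M)) with hμ
  have hμ0 : 0 < μ := Real.sqrt_pos.mpr (by positivity)
  set θ : ℝ := (4 - r) / r with hθ
  have hθ0 : 0 ≤ θ := div_nonneg (by linarith) hr0.le
  have hθ1 : θ ≤ 1 := by rw [hθ, div_le_one hr0]; linarith
  have e1 := sum_Q4 A c l1 hRJ hl1pos.le
    (fun a => (Finset.sum_le_sum (fun b _ => hAsq a b)).trans (hrow a)) hAl
  have e2 := sum_Q2 B c hRJ
  have e2' : ∑ k, PsiR r B (univ.filter (fun i => c i = k)) ≤ ∑ b, ∑ a, B a b ^ 2 :=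
    (Finset.sum_le_sum (fun k _ => PsiR_le_Q2 hr.le B _)).trans e2
  have e0 := sum_Q2 A c hRJ
  have hcardprod : (Fintype.card (R × J) : ℝ) = m ^ 2 := by
    rw [Fintype.card_prod, ← hRJ]; push_cast; ring
  have e0' : ∑ k, Q2 A (univ.filter (fun i => c i = k)) ≤ m ^ 2 := by
    refine e0.trans ?_
    refine (Finset.sum_le_sum (fun b _ => (Finset.sum_le_sum (fun a _ => hAsq a b)).trans
      (hcol b))).trans (le_of_eq ?_)
    rw [Finset.sum_const, Finset.card_univ, nsmul_eq_mul, mul_one, hcardprod]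
  have hCcard : ∀ b, (((Finset.univ.filter (fun a => C a b ≠ 0)).card : ℕ) : ℝ) ≤ 1 / l2 := by
    intro b
    rw [le_div_iff₀ hl2pos]
    refine le_trans ?_ (hcol b)
    have : (((Finset.univ.filter (fun a => C a b ≠ 0)).card : ℕ) : ℝ) * l2
        = ∑ _a ∈ Finset.univ.filter (fun a => C a b ≠ 0), l2 := by simp
    rw [this]
    refine le_trans (Finset.sum_le_sum (fun a ha => ?_))
      (Finset.sum_le_univ_sum_of_nonneg (f := fun a => P a b ^ 2) (fun a => sq_nonneg _))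
    rw [Finset.mem_filter] at ha
    by_contra hcon
    push Not at hcon
    apply ha.2
    simp only [hC]
    rw [if_neg]
    rintro ⟨_, h⟩
    exact h hcon.le
  have e3 := sum_rows hr.le C c (1 / l2) s
    (fun b => (Finset.sum_le_sum (fun a _ => hCsq a b)).trans (hcol b)) (by positivity) hCcard
    hs0.le hs
  have hlow := lowerR hr0 P hRJ htr
  have hstep := type_stepR P E T hT hE c
  have hsum : ∑ k, PsiR r P (univ.filter (fun i => c i = k))
      ≤ 3 * (∑ k, PsiR r A (univ.filter (fun i => c i = k))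
        + ∑ k, PsiR r B (univ.filter (fun i => c i = k))
        + ∑ k, PsiR r C (univ.filter (fun i => c i = k))) := by
    rw [← Finset.sum_add_distrib, ← Finset.sum_add_distrib, Finset.mul_sum]
    refine Finset.sum_le_sum (fun k _ => ?_)
    conv_lhs => rw [hPABC]
    exact PsiR_add3 (by linarith) A B C _
  have hB2 : ∑ b, ∑ a, B a b ^ 2 ≤ β * m ^ 2 := by
    refine le_trans (le_of_eq ?_) hβ
    refine Finset.sum_congr rfl (fun b _ => Finset.sum_congr rfl (fun a _ => ?_))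
    simp only [hB]
    split_ifs
    · rfl
    · simp
  simp only [Fintype.card_fin] at e1 e3
  have hKval : (K : ℝ) ≤ 2 * m / s := by rw [le_div_iff₀ hs0]; exact hKs
  have e1' : Real.sqrt ((K : ℝ) * (Fintype.card R : ℝ) *
        (3 * (1 + l1 * (Fintype.card R : ℝ)) * ((Fintype.card R : ℝ)) ^ 2))
      ≤ m ^ 2 * μ := by
    rw [← hm, hμ]
    have h1 : (K : ℝ) * m * (3 * (1 + l1 * m) * m ^ 2) ≤ (2 * m / s) * m *
        (3 * (1 + l1 * m) * m ^ 2) := by
      apply mul_le_mul_of_nonneg_right _ (by positivity)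
      exact mul_le_mul_of_nonneg_right hKval hm0.le
    have h2 : (2 * m / s) * m * (3 * (1 + l1 * m) * m ^ 2) =
        (m ^ 2) ^ 2 * (6 * (1 / s + 1 / M)) := by
      rw [hl1]
      field_simp
      ring
    refine (Real.sqrt_le_sqrt (h1.trans h2.le)).trans (le_of_eq ?_)
    rw [Real.sqrt_mul (by positivity), Real.sqrt_sq (by positivity)]
  have e3' : (K : ℝ) * (s * (1 / l2) * s) ≤ m ^ 2 * (2 / M) := by
    have h1 : (K : ℝ) * (s * (1 / l2) * s) ≤ (2 * m / s) * (s * (1 / l2) * s) :=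
      mul_le_mul_of_nonneg_right hKval (by positivity)
    refine h1.trans (le_of_eq ?_)
    rw [hl2]
    field_simp
  have eA : ∑ k, PsiR r A (univ.filter (fun i => c i = k)) ≤ m ^ 2 * μ ^ (1 - θ) := by
    have h1 : ∑ k, PsiR r A (univ.filter (fun i => c i = k)) ≤
        θ * μ ^ (1 - θ) * (∑ k, Q2 A (univ.filter (fun i => c i = k))) +
        (1 - θ) * μ ^ (-θ) * ∑ k, Q4 A (univ.filter (fun i => c i = k)) := by
      rw [Finset.mul_sum, Finset.mul_sum, ← Finset.sum_add_distrib]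
      exact Finset.sum_le_sum (fun k _ => PsiR_le_comb hr hr4 A _ hμ0)
    have h2 : θ * μ ^ (1 - θ) * (∑ k, Q2 A (univ.filter (fun i => c i = k))) ≤
        θ * μ ^ (1 - θ) * m ^ 2 := mul_le_mul_of_nonneg_left e0' (by positivity)
    have h3 : (1 - θ) * μ ^ (-θ) * ∑ k, Q4 A (univ.filter (fun i => c i = k)) ≤
        (1 - θ) * μ ^ (-θ) * (m ^ 2 * μ) :=
      mul_le_mul_of_nonneg_left (e1.trans e1')
        (mul_nonneg (by linarith) (Real.rpow_nonneg hμ0.le _))
    have h4 : μ ^ (-θ) * μ = μ ^ (1 - θ) := by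
      have : μ ^ (-θ) * μ = μ ^ (-θ) * μ ^ (1 : ℝ) := by rw [Real.rpow_one]
      rw [this, ← Real.rpow_add hμ0]
      congr 1; ring
    calc _ ≤ θ * μ ^ (1 - θ) * m ^ 2 + (1 - θ) * μ ^ (-θ) * (m ^ 2 * μ) := by linarith
      _ = θ * μ ^ (1 - θ) * m ^ 2 + (1 - θ) * m ^ 2 * (μ ^ (-θ) * μ) := by ring
      _ = m ^ 2 * μ ^ (1 - θ) := by rw [h4]; ring
  have e3'' := e3.trans e3'
  have eB := e2'.trans hB2
  have hfin : ((∑ a, P a a) / m) ^ 2 ≤ T * (3 * (m ^ 2 * μ ^ (1 - θ) + β * m ^ 2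
      + m ^ 2 * (2 / M))) := by
    refine hlow.trans (hstep.trans (mul_le_mul_of_nonneg_left (hsum.trans ?_) hT0))
    linarith
  refine hfin.trans (le_of_eq ?_)
  ring

end

/-- a partition of `Fin m` into `K` blocks of size at most `s`, with `K s ≤ 2 m` -/
lemma exists_blocks' (m s : ℕ) (hs : 1 ≤ s) (hsm : s ≤ m) :
    ∃ (K : ℕ) (c : Fin m → Fin K), (∀ k, (univ.filter (fun i => c i = k)).card ≤ s) ∧
      K * s ≤ 2 * m := by
  refine ⟨m / s + 1, fun i => ⟨i.val / s, ?_⟩, ?_, ?_⟩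
  · exact Nat.lt_succ_of_le (Nat.div_le_div_right i.isLt.le)
  · intro k
    have h : (univ.filter (fun i : Fin m => (⟨i.val / s, Nat.lt_succ_of_le
        (Nat.div_le_div_right i.isLt.le)⟩ : Fin (m / s + 1)) = k)).card ≤ (Finset.range s).card := by
      refine Finset.card_le_card_of_injOn (fun i => i.val % s) ?_ ?_
      · intro i _
        have : i.val % s < s := Nat.mod_lt _ hs
        simpa using this
      · intro i hi j hj hij
        have hi' := (Finset.mem_filter.mp (Finset.mem_coe.mp hi)).2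
        have hj' := (Finset.mem_filter.mp (Finset.mem_coe.mp hj)).2
        have h1 : i.val / s = j.val / s := by
          have e1 := congrArg Fin.val hi'
          have e2 := congrArg Fin.val hj'
          simp only at e1 e2
          rw [e1, e2]
        have h2 : i.val % s = j.val % s := hij
        apply Fin.ext
        rw [← Nat.div_add_mod i.val s, ← Nat.div_add_mod j.val s, h1, h2]
    simpa using h
  · have h1 : (m / s) * s ≤ m := Nat.div_mul_le_self m s
    calc (m / s + 1) * s = (m / s) * s + s := by ring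
      _ ≤ 2 * m := by omega

/-- the windows `(b^{2l}/m, b^{2l+2}/m]` are disjoint -/
lemma windows' (b t : ℕ) (hb : 1 ≤ b) (m x : ℝ) (hm : 0 < m) (hx : 0 ≤ x) :
    ∑ l ∈ Finset.range t, (if (b : ℝ) ^ (2 * l) / m < x ∧ x ≤ (b : ℝ) ^ (2 * l + 2) / m
      then x else 0) ≤ x := by
  by_cases h : ∃ l ∈ Finset.range t, (b : ℝ) ^ (2 * l) / m < x ∧ x ≤ (b : ℝ) ^ (2 * l + 2) / m
  · obtain ⟨l, hl, h1, h2⟩ := h
    rw [Finset.sum_eq_single_of_mem l hl]
    · rw [if_pos ⟨h1, h2⟩]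
    · intro k _ hkl
      rw [if_neg]
      rintro ⟨h3, h4⟩
      have ht' : (1 : ℝ) ≤ b := by exact_mod_cast hb
      rcases lt_or_gt_of_ne hkl with h5 | h5
      · have : (b : ℝ) ^ (2 * k + 2) / m ≤ (b : ℝ) ^ (2 * l) / m := by
          apply div_le_div_of_nonneg_right _ hm.le
          exact pow_le_pow_right₀ ht' (by omega)
        linarith
      · have : (b : ℝ) ^ (2 * l + 2) / m ≤ (b : ℝ) ^ (2 * k) / m := by
          apply div_le_div_of_nonneg_right _ hm.le
          exact pow_le_pow_right₀ ht' (by omega)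
        linarith
  · push Not at h
    refine le_trans (le_of_eq (Finset.sum_eq_zero (fun l hl => ?_))) hx
    rw [if_neg]
    rintro ⟨h1, h2⟩
    exact absurd h2 (not_le.mpr (h l hl h1))

theorem main_estimateR {r : ℝ} (hr : 2 < r) (hr4 : r ≤ 4) (b t : ℕ) (hb : 1 ≤ b) (ht : 1 ≤ t)
    (m : ℕ) (hm : b ^ (2 * t) ≤ m)
    (P : Fin m × Fin m → Fin m × Fin m → ℝ) (E : Submodule ℝ (Fin m × Fin m → ℝ)) (T : ℝ)
    (hT : T2r r (E : Set (Fin m × Fin m → ℝ)) T) (hT0 : 0 ≤ T)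
    (hE : ∀ b, (fun a => P a b) ∈ E)
    (htr : 0 ≤ ∑ a, P a a)
    (hcol : ∀ b, ∑ a, P a b ^ 2 ≤ 1) (hrow : ∀ a, ∑ b, P a b ^ 2 ≤ 1) :
    ((∑ a, P a a) / m) ^ 2 ≤ 3 * T * (m : ℝ) ^ 2 *
      (Real.sqrt (12 / b) ^ (1 - (4 - r) / r) + 1 / t + 2 / b) := by
  have hr0 : 0 < r := by linarith
  have ht0 : 0 < t := ht
  have htR : (1 : ℝ) ≤ t := by exact_mod_cast ht
  have htpos : (0 : ℝ) < t := by linarith
  have hbR : (1 : ℝ) ≤ b := by exact_mod_cast hb
  have hbpos : (0 : ℝ) < b := by linarith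
  have hm0 : 0 < m := lt_of_lt_of_le (by positivity) hm
  have hmR : (0 : ℝ) < m := by exact_mod_cast hm0
  have : Nonempty (Fin m) := ⟨⟨0, hm0⟩⟩
  -- choose the scale
  set w : ℕ → ℝ := fun l => ∑ c : Fin m × Fin m, ∑ a, (if (b : ℝ) ^ (2 * l) / m < P a c ^ 2 ∧
    P a c ^ 2 ≤ (b : ℝ) ^ (2 * l + 2) / m then P a c ^ 2 else 0) with hw
  have hsum : ∑ l ∈ Finset.range t, w l ≤ ∑ _l ∈ Finset.range t, (m : ℝ) ^ 2 / t := by
    have h1 : ∑ l ∈ Finset.range t, w l ≤ ∑ c : Fin m × Fin m, ∑ a, P a c ^ 2 := by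
      simp only [hw]
      rw [Finset.sum_comm]
      refine Finset.sum_le_sum (fun c _ => ?_)
      rw [Finset.sum_comm]
      exact Finset.sum_le_sum (fun a _ => windows' b t hb m (P a c ^ 2) hmR (sq_nonneg _))
    have h2 : ∑ c : Fin m × Fin m, ∑ a, P a c ^ 2 ≤ (m : ℝ) ^ 2 := by
      refine (Finset.sum_le_sum (fun c _ => hcol c)).trans (le_of_eq ?_)
      simp [sq]
    refine (h1.trans h2).trans (le_of_eq ?_)
    simp
    field_simp
  obtain ⟨l, hl, hwl⟩ := Finset.exists_le_of_sum_le (Finset.nonempty_range_iff.mpr ht0.ne') hsum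
  rw [Finset.mem_range] at hl
  have hsm : b ^ (2 * l + 1) ≤ m :=
    (Nat.pow_le_pow_right hb (by omega)).trans hm
  obtain ⟨K, c, hc, hKs⟩ := exists_blocks' m (b ^ (2 * l + 1)) (Nat.one_le_pow _ _ hb) hsm
  have hEap : ∀ (I : Finset (Fin m)) (p : Fin m → Fin m) (d : Fin m → ℤˣ),
      ap P I p d ∈ (E : Set (Fin m × Fin m → ℝ)) := by
    intro I p d
    have : ap P I p d = ∑ i ∈ I, sg (d i) • (fun a => P a (i, p i)) := by
      funext a
      simp [ap, Finset.sum_apply]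
    rw [this]
    exact E.sum_mem (fun i _ => E.smul_mem _ (hE _))
  have hcardR : (Fintype.card (Fin m) : ℝ) = m := by simp
  have key := scale_estimateR (R := Fin m) (J := Fin m) hr hr4 P (E : Set _) T hT hT0 hEap rfl
    htr hcol hrow c ((b : ℝ) ^ (2 * l + 1)) b (by positivity) hbR
    (by intro k; exact_mod_cast hc k)
    (by
      rw [hcardR]
      exact_mod_cast hKs)
    (1 / t)
    (by
      rw [hcardR]
      have e1 : (b : ℝ) ^ (2 * l + 1) / (b * m) = (b : ℝ) ^ (2 * l) / m := by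
        rw [pow_succ]; field_simp
      have e2 : (b : ℝ) ^ (2 * l + 1) * b / m = (b : ℝ) ^ (2 * l + 2) / m := by
        rw [← pow_succ]
      rw [e1, e2]
      refine hwl.trans (le_of_eq ?_)
      ring)
  rw [hcardR] at key
  refine key.trans ?_
  refine mul_le_mul_of_nonneg_left ?_ (by positivity)
  have hθ1 : 0 ≤ 1 - (4 - r) / r := by
    have : (4 - r) / r ≤ 1 := by rw [div_le_one hr0]; linarith
    linarith
  have h3 : Real.sqrt (6 * (1 / (b : ℝ) ^ (2 * l + 1) + 1 / b)) ≤ Real.sqrt (12 / b) := by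
    apply Real.sqrt_le_sqrt
    have : 1 / (b : ℝ) ^ (2 * l + 1) ≤ 1 / b := by
      apply one_div_le_one_div_of_le hbpos
      calc (b : ℝ) = b ^ 1 := (pow_one _).symm
        _ ≤ b ^ (2 * l + 1) := pow_le_pow_right₀ hbR (by omega)
    have h6 : (12 : ℝ) / b = 6 * (1 / b + 1 / b) := by ring
    rw [h6]
    linarith
  have h5 := Real.rpow_le_rpow (Real.sqrt_nonneg _) h3 hθ1
  linarith

/-- final form: the dimension of a subspace in terms of the type 2 constant -/
theorem final_estimate {r : ℝ} (hr : 2 < r) (hr4 : r ≤ 4) (a : ℕ) (ha : r ≤ a * (r - 2)) (t : ℕ)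
    (ht : 1 ≤ t) (m : ℕ)
    (hm : (t ^ a) ^ (2 * t) ≤ m) (E : Submodule ℝ (Fin m × Fin m → ℝ)) (T : ℝ) (hT0 : 0 ≤ T)
    (hT : T2r r (E : Set (Fin m × Fin m → ℝ)) (T ^ 2)) :
    (Module.finrank ℝ E : ℝ) ≤ 5 * T * (m : ℝ) ^ 2 / Real.sqrt t := by
  have hr0 : 0 < r := by linarith
  have htR : (1 : ℝ) ≤ t := by exact_mod_cast ht
  have htpos : (0 : ℝ) < t := by linarith
  have hm0 : 0 < m := lt_of_lt_of_le (by positivity) hm
  have hmR : (0 : ℝ) < m := by exact_mod_cast hm0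
  have hb1 : 1 ≤ t ^ a := Nat.one_le_pow _ _ ht
  have ha1 : 1 ≤ a := by
    rcases Nat.eq_zero_or_pos a with h | h
    · rw [h] at ha; norm_num at ha; linarith
    · exact h
  obtain ⟨P, hP1, hP2, hP3, hP4⟩ := exists_proj E
  set D : ℝ := (Module.finrank ℝ E : ℝ) with hD
  have hD0 : 0 ≤ D := by positivity
  have h := main_estimateR hr hr4 (t ^ a) t hb1 ht m hm P E (T ^ 2) hT (sq_nonneg _) hP1
    (by rw [hP4]; exact hD0) hP2 hP3
  rw [hP4] at h
  -- the three terms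
  set B : ℝ := ((t ^ a : ℕ) : ℝ) with hB
  have hBpow : B = (t : ℝ) ^ (a : ℝ) := by rw [hB, Real.rpow_natCast]; push_cast; rfl
  have hBt : (t : ℝ) ≤ B := by
    rw [hB]
    exact_mod_cast Nat.le_self_pow (by omega) t
  have hB0 : 0 < B := lt_of_lt_of_le htpos hBt
  have h2r : 2 / r < 1 := by rw [div_lt_one hr0]; exact hr
  have h2r' : 1 / 2 ≤ 2 / r := by rw [div_le_div_iff₀ (by norm_num) hr0]; linarith
  have hA : Real.sqrt (12 / B) ^ (1 - (4 - r) / r) ≤ 4 / t := by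
    rw [Real.sqrt_eq_rpow, ← Real.rpow_mul (by positivity)]
    have e : 1 / 2 * (1 - (4 - r) / r) = 1 - 2 / r := by
      field_simp
      ring
    rw [e, Real.div_rpow (by norm_num) hB0.le]
    have h1 : (12 : ℝ) ^ (1 - 2 / r) ≤ 4 := by
      calc (12 : ℝ) ^ (1 - 2 / r) ≤ (12 : ℝ) ^ (1 / 2 : ℝ) :=
            Real.rpow_le_rpow_of_exponent_le (by norm_num) (by linarith)
        _ = Real.sqrt 12 := (Real.sqrt_eq_rpow 12).symm
        _ ≤ 4 := by
            rw [Real.sqrt_le_left (by norm_num)]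
            norm_num
    have h2 : (t : ℝ) ≤ B ^ (1 - 2 / r) := by
      rw [hBpow, ← Real.rpow_mul htpos.le]
      calc (t : ℝ) = (t : ℝ) ^ (1 : ℝ) := (Real.rpow_one _).symm
        _ ≤ _ := by
          apply Real.rpow_le_rpow_of_exponent_le htR
          have : (a : ℝ) * (1 - 2 / r) = (a * (r - 2)) / r := by field_simp
          rw [this, le_div_iff₀ hr0]
          linarith
    exact div_le_div₀ (by norm_num) h1 htpos h2
  have hC : 2 / B ≤ 2 / t := div_le_div_of_nonneg_left (by norm_num) htpos hBt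
  have h1 : (D / m) ^ 2 ≤ 3 * T ^ 2 * (m : ℝ) ^ 2 * (7 / t) := by
    refine h.trans (mul_le_mul_of_nonneg_left ?_ (by positivity))
    have : (7 : ℝ) / t = 4 / t + 1 / t + 2 / t := by ring
    rw [this]
    linarith
  have hst : 0 < Real.sqrt t := Real.sqrt_pos.mpr htpos
  have hst2 : Real.sqrt t ^ 2 = t := Real.sq_sqrt htpos.le
  have h3 : D ^ 2 ≤ (5 * T * (m : ℝ) ^ 2 / Real.sqrt t) ^ 2 := by
    have e : D ^ 2 = (D / m) ^ 2 * (m : ℝ) ^ 2 := by field_simp
    rw [e, div_pow (5 * T * (m : ℝ) ^ 2), hst2]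
    calc (D / m) ^ 2 * (m : ℝ) ^ 2 ≤ (3 * T ^ 2 * (m : ℝ) ^ 2 * (7 / t)) * (m : ℝ) ^ 2 :=
          mul_le_mul_of_nonneg_right h1 (by positivity)
      _ = 21 * ((T * (m : ℝ) ^ 2) ^ 2 / t) := by ring
      _ ≤ 25 * ((T * (m : ℝ) ^ 2) ^ 2 / t) :=
          mul_le_mul_of_nonneg_right (by norm_num) (by positivity)
      _ = _ := by ring
  exact (abs_le_of_sq_le_sq' h3 (by positivity)).2

end Pool.Agent.H75.Tp
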